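import Pool.Agent.H961.T1.A18

/-!
# Random stirring has no long cycles up to the time `1 / Δ + (2 - o(1)) / Δ ^ 2`

`stirExp J t F` (Pool.Agent.Y998.ST.Defs) is the expectation of `F` under random stirring (the
interchange process) with rates `J` at time `t`, started at the identity, `nnRate d L` are the rates
`1` for the nearest neighbours of the torus `(ℤ / L)^d`, and `cycleLen g v` is the length of the
cycle of `g` through `v`. `gRate G` are the rates `1` for the edges of the graph `G`, and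
`ManyLong i a g` says that at least `i` cycles of `g` have at least `a |V|` points.

The bound which comes from percolation (the cycle of `v` is contained in the percolation cluster of
the edges which have rung) is `-log (1 - q_c)`, for the torus this is
`1 / (2 d) + (3 / 2 + o(1)) / (2 d) ^ 2`. The following theorem gives the constant `2` instead of
`3 / 2`, for every graph with degrees at most `Δ`. On the tree in which all vertices have degree `Δ`
infinite cycles appear at `1 / Δ + (2 + o(1)) / Δ ^ 2`, so that `2` is the right constant for the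
class of all graphs.
-/

set_option autoImplicit false

namespace Pool.Agent.Results.MP_6c3d62_pr.CriticalTimeSecondOrder

open Filter Topology
open Pool.Agent.Y998.ST (stirExp cycleLen nnRate)
open Pool.Agent.H961.T1 (gRate ManyLong)

open Classical in
/-- (1) On every finite graph with degrees at most `Δ`, for every `ε ∈ (0, 1]` with `64 / ε² ≤ Δ`
and every time `t` with `t (Δ - 2 + ε) ≤ 1`, the mean length of the cycle of any vertex at time `t`
is at most `4 Δ / ε`.
(2) On the torus of side `L + 3` in dimension `d`, if `64 / ε² ≤ 2 d` and `t (2 d - 2 + ε) ≤ 1`, the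
probability that the `i`-th longest cycle (`i ≥ 1`) has at least a fraction `a` of the points is at
most `8 d / (ε a² (L + 3)^d)`.
(3) If `d ≥ 32` and `β` is such that at all times `t > β` the `i`-th longest cycle is macroscopic with
probability bounded below, for every `i`, then `β ≥ 1 / (2 d - 2 + 8 / √(2 d))`. -/
theorem result :
    (∀ (V : Type) [Fintype V] [DecidableEq V] (G : SimpleGraph V) (Δ : ℕ) (ε t : ℝ),
      (∀ x, Nat.card {z : V // G.Adj x z} ≤ Δ) → 0 < ε → ε ≤ 1 → 64 / ε ^ 2 ≤ Δ → 0 ≤ t →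
      t * (Δ - 2 + ε) ≤ 1 →
      ∀ v, stirExp (gRate G) t (fun g => (cycleLen g v : ℝ)) ≤ 4 * Δ / ε) ∧
    (∀ (d : ℕ) (ε t : ℝ), 0 < ε → ε ≤ 1 → 64 / ε ^ 2 ≤ 2 * d → 0 ≤ t →
      t * (2 * d - 2 + ε) ≤ 1 → ∀ L i : ℕ, 1 ≤ i → ∀ a : ℝ, 0 < a →
      stirExp (nnRate d (L + 3)) t (fun g => if ManyLong i a g then 1 else 0) ≤
        8 * d / (ε * a ^ 2 * ((L : ℝ) + 3) ^ d)) ∧
    (∀ (d : ℕ) (β : ℝ), 32 ≤ d → 0 ≤ β →
      (∀ t, β < t → ∀ i : ℕ, 1 ≤ i → ∃ a₀ > 0, ∀ a : ℝ, 0 < a → a ≤ a₀ →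
        0 < liminf (fun L : ℕ => stirExp (nnRate d (L + 3)) t
          (fun g => if ManyLong i a g then 1 else 0)) atTop) →
      1 / (2 * d - 2 + 8 / √(2 * d)) ≤ β) := by
  have h2 : ∀ (d : ℕ) (ε t : ℝ), 0 < ε → ε ≤ 1 → 64 / ε ^ 2 ≤ 2 * d → 0 ≤ t →
      t * (2 * d - 2 + ε) ≤ 1 → ∀ L i : ℕ, 1 ≤ i → ∀ a : ℝ, 0 < a →
      stirExp (nnRate d (L + 3)) t (fun g => if ManyLong i a g then (1 : ℝ) else 0) ≤
        8 * d / (ε * a ^ 2 * ((L : ℝ) + 3) ^ d) := by
    intro d ε t hε0 hε1 hd ht0 ht L i hi a ha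
    have h := Pool.Agent.H961.T1.torus_bound hε0 hε1 hd ht0 ht (L := L + 3) (by omega) hi ha
    push_cast at h
    exact h
  refine ⟨fun V _ _ G Δ ε t hdeg hε0 hε1 hΔ ht0 ht v =>
    Pool.Agent.H961.T1.critical G hdeg hε0 hε1 hΔ ht0 ht v, h2, ?_⟩
  intro d β hd hβ hβt
  by_contra hlt
  push Not at hlt
  have hd' : (32 : ℝ) ≤ d := by exact_mod_cast hd
  have hs8 : 8 ≤ √(2 * (d : ℝ)) := by
    rw [show (8 : ℝ) = √64 by rw [show (64 : ℝ) = 8 ^ 2 by norm_num]; simp]
    exact Real.sqrt_le_sqrt (by linarith)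
  have hspos : 0 < √(2 * (d : ℝ)) := by linarith
  have hε0 : 0 < 8 / √(2 * (d : ℝ)) := by positivity
  have hε1 : 8 / √(2 * (d : ℝ)) ≤ 1 := by rw [div_le_one hspos]; exact hs8
  have hε2 : 64 / (8 / √(2 * (d : ℝ))) ^ 2 ≤ 2 * d := by
    rw [div_pow, Real.sq_sqrt (by positivity)]
    apply le_of_eq
    field_simp
    norm_num
  have hden : 0 < 2 * (d : ℝ) - 2 + 8 / √(2 * (d : ℝ)) := by linarith
  obtain ⟨a₀, ha₀, hlim⟩ := hβt _ hlt 1 le_rfl
  have h3 := hlim a₀ ha₀ le_rfl
  have ht0 : 0 ≤ 1 / (2 * (d : ℝ) - 2 + 8 / √(2 * (d : ℝ))) := by positivity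
  have h4 : Tendsto (fun L : ℕ => stirExp (nnRate d (L + 3))
      (1 / (2 * (d : ℝ) - 2 + 8 / √(2 * (d : ℝ))))
      (fun g => if ManyLong 1 a₀ g then (1 : ℝ) else 0)) atTop (𝓝 0) := by
    have h5 : Tendsto (fun L : ℕ => 8 * (d : ℝ) / (8 / √(2 * (d : ℝ)) * a₀ ^ 2 *
        ((L : ℝ) + 3) ^ d)) atTop (𝓝 0) := by
      apply Tendsto.div_atTop (tendsto_const_nhds)
      apply Tendsto.const_mul_atTop (by positivity)
      apply (tendsto_pow_atTop (by omega)).comp
      exact tendsto_atTop_add_const_right _ _ tendsto_natCast_atTop_atTop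
    refine squeeze_zero (fun L => ?_) (fun L => ?_) h5
    · refine Pool.Agent.Y998.ST.exp_nonneg ?_ ht0 fun g => by split_ifs <;> norm_num
      intro x y
      rw [Pool.Agent.H961.T1.nnRate_eq d (by omega)]
      exact Pool.Agent.H961.T1.gRate_nonneg _ _ _
    · exact h2 d _ _ hε0 hε1 hε2 ht0 (by rw [one_div, inv_mul_cancel₀ hden.ne']) L 1 le_rfl a₀ ha₀
  rw [h4.liminf_eq] at h3
  exact lt_irrefl _ h3

end Pool.Agent.Results.MP_6c3d62_pr.CriticalTimeSecondOrder
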