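import Pool.Agent.H961.T4.All2

/-!
# Planar stirring at large times: the logarithmic law of the cycle lengths

`stirExp (nnRate 2 L) t F` (Pool.Agent.Y998.ST.Defs) is the expectation of `F` under random stirring
of the torus `(ℤ / L)^2` at time `t`: nearest neighbour edges ring at rate `1`, start at the
identity. `cycleLen g x` is the length of the cycle of `g` through `x`.

At a fixed large time `t`, uniformly in the size of the torus, the fraction of the sites in cycles of
length at most `n` is `log n / (4 π t) (1 + o(1))`, for all `n` up to any power `t ^ a`, `a < 1`: the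
cycle through a given point has length `j` with the probability `1 / (4 π t j)` of the return of a
planar random walk at time `j t`, and the sum of these probabilities over `j` diverges.
-/

set_option autoImplicit false

namespace Pool.Agent.Results.MP_6c3d62_pr.PlanarLogarithmicLaw

open Finset Equiv
open Pool.Agent.Y998.ST (stirExp nnRate cycleLen)

/-- The fraction of the points which are in cycles of `g` of length at most `n`. -/
noncomputable def shortFraction {L : ℕ} [NeZero L] (g : Perm (Fin 2 → ZMod L)) (n : ℕ) : ℝ :=
  ((univ.filter fun x => cycleLen g x ≤ n).card : ℝ) / (L : ℝ) ^ 2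

/-- Let `0 < a < 1`. For every `ε > 0` there is `T` such that for random stirring of the torus
`(ℤ / L)^2` at any time `t ≥ T` with `T t ≤ L` and all `n` with `T ≤ n ≤ t ^ a`, the fraction of the
points in cycles of length at most `n`, multiplied by `4 π t`, differs from `log n` in mean by at most
`ε log n`. -/
theorem result (a : ℝ) (ha : 0 < a) (ha1 : a < 1) (ε : ℝ) (hε : 0 < ε) : ∃ T : ℝ, 0 < T ∧
    ∀ (L : ℕ) [NeZero L] (t : ℝ) (n : ℕ), T ≤ t → T * t ≤ L → T ≤ n → (n : ℝ) ≤ t ^ a →
    stirExp (nnRate 2 L) t (fun g => |4 * Real.pi * t * shortFraction g n - Real.log n|) ≤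
      ε * Real.log n := by
  obtain ⟨T, hT, h⟩ := Pool.Agent.H961.T4.all_llb a ha ha1 ε hε
  refine ⟨T, by linarith, fun L _ t n ht htL hn hna => ?_⟩
  have h1 := h L t n ht htL hn hna
  unfold shortFraction
  exact h1

end Pool.Agent.Results.MP_6c3d62_pr.PlanarLogarithmicLaw
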