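import Pool.Agent.H961.T3.All2

/-!
# Planar stirring at polylogarithmic times: the cycle lengths on all mesoscopic scales

`stirExp (nnRate 2 L) t F` (Pool.Agent.Y998.ST.Defs) is the expectation of `F` under random stirring
of the torus `(ℤ / L)^2` at time `t`: nearest neighbour edges ring at rate `1`, start at the
identity. `cycleLen g x` is the length of the cycle of `g` through `x`.

For times `t ≥ (log L)^m` the cycle lengths divided by `n` converge in law to the Poisson point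
process on `(0, ∞)` with intensity `du / u`, as for a uniform permutation, for all scales `n` between
`(log L)^m (1 + L² / t)` and `L²`, and the probability that the cycle of a given point has length at
most `n` is `n / L² (1 + o(1))`.
-/

set_option autoImplicit false

namespace Pool.Agent.Results.MP_6c3d62_pr.PlanarMesoscopicCycles

open Equiv
open Pool.Agent.Y998.ST (stirExp nnRate cycleLen)

/-- The sum of `h (ℓ / n)` over the lengths `ℓ` of the cycles of `g` (the parts of the partition of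
`g`; a fixed point is a cycle of length `1`). -/
noncomputable def cycleSum {V : Type} [Fintype V] [DecidableEq V] (h : ℝ → ℝ) (n : ℝ)
    (g : Perm V) : ℝ :=
  (g.partition.parts.map fun l : ℕ => h ((l : ℝ) / n)).sum

/-- The conditions on the time `t` and on the scale `n` on the torus of side `L`. -/
def Range (m : ℕ) (L : ℕ) (t n : ℝ) : Prop :=
  3 ≤ L ∧ (Real.log L) ^ m ≤ t ∧ t ≤ (L : ℝ) ^ 2 ∧
    (Real.log L) ^ m * (1 + (L : ℝ) ^ 2 / t) ≤ n ∧ n ≤ (L : ℝ) ^ 2 ∧
    ((Real.log L) ^ m * n ≤ (L : ℝ) ^ 2 ∨ t ^ 4 ≤ (L : ℝ) ^ 7)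

/-- Random stirring on the two-dimensional torus of side `L`. There is `m` such that, with the
conditions `(log L) ^ m ≤ t ≤ L ^ 2`, `(log L) ^ m (1 + L ^ 2 / t) ≤ n ≤ L ^ 2` and
(`(log L) ^ m n ≤ L ^ 2` or `t ^ 4 ≤ L ^ 7`):
(1) for every continuous `h ≥ 0` which vanishes outside of some `[α, β]`, `α > 0`, and every `ε > 0`
there is `T` such that, if `T ≤ t` and `T n ≤ L ^ 2`, the mean of `exp (- ∑ h (ℓ / n))`, the sum over
the lengths `ℓ` of the cycles at time `t`, differs by at most `ε` from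
`exp (- ∫_0^∞ (1 - exp (- h u)) du / u)`;
(2) for every `ε > 0` there is `T` such that, if `T ≤ t`, for every site `x` the probability that
the cycle of `x` has length at most `n` differs from `n / L ^ 2` by at most `ε n / L ^ 2`. -/
theorem result : ∃ m : ℕ,
    (∀ (h : ℝ → ℝ) (α β : ℝ), Continuous h →
      (∀ u, 0 ≤ h u) → 0 < α → (∀ u, (u < α ∨ β < u) → h u = 0) → ∀ ε : ℝ, 0 < ε →
      ∃ T : ℝ, 0 < T ∧ ∀ (L : ℕ) [NeZero L] (t n : ℝ), Range m L t n → T ≤ t →
      T * n ≤ (L : ℝ) ^ 2 →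
      |stirExp (nnRate 2 L) t (fun g => Real.exp (-cycleSum h n g)) -
        Real.exp (-∫ u in Set.Ioi (0 : ℝ), (1 - Real.exp (-h u)) / u)| ≤ ε) ∧
    (∀ ε : ℝ, 0 < ε →
      ∃ T : ℝ, 0 < T ∧ ∀ (L : ℕ) [NeZero L] (t n : ℝ), Range m L t n → T ≤ t →
      ∀ x : Fin 2 → ZMod L,
      |stirExp (nnRate 2 L) t (fun g => if (cycleLen g x : ℝ) ≤ n then 1 else 0) -
        n / (L : ℝ) ^ 2| ≤ ε * (n / (L : ℝ) ^ 2)) := by
  obtain ⟨m₁, hm₁, H1⟩ := Pool.Agent.H961.T3.poisson_cont2 Pool.Agent.H961.T3.all_mesp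
    Pool.Agent.H961.T3.all_gapq 2 le_rfl
  obtain ⟨m₂, hm₂, H2⟩ := Pool.Agent.H961.T3.point_all2 Pool.Agent.H961.T3.all_stp
    Pool.Agent.H961.T3.Karh.t_KAR Pool.Agent.H961.T3.all_cyc Pool.Agent.H961.T3.all_gapo 2 le_rfl
  have hlog : ∀ L : ℕ, 3 ≤ L → 1 ≤ Real.log L := fun L hL => by
    have hL3 : (3 : ℝ) ≤ L := by exact_mod_cast hL
    have h2 : Real.exp 1 ≤ L := by
      have := Real.exp_one_lt_d9
      linarith
    have := Real.log_le_log (Real.exp_pos 1) h2
    rwa [Real.log_exp] at this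
  refine ⟨m₁ + m₂, ?_, ?_⟩
  · intro h α β hc h0 hα hsupp ε hε
    obtain ⟨T, hT, H⟩ := H1 h α β hc h0 hα hsupp ε hε
    refine ⟨T, by linarith, ?_⟩
    rintro L _ t n ⟨r1, r2, r3, r4, r5, r6⟩ hTt hTn
    have hl := hlog L r1
    have hpw : (Real.log L) ^ m₁ ≤ (Real.log L) ^ (m₁ + m₂) := pow_le_pow_right₀ hl (by omega)
    have ht0 : 0 < t := by linarith
    have hn0 : 0 < n := by
      have : 0 < (Real.log L) ^ (m₁ + m₂) * (1 + (L : ℝ) ^ 2 / t) := by positivity
      linarith
    have h7 := H L t n hTt (hpw.trans r2) r3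
      ((mul_le_mul_of_nonneg_right hpw (by positivity)).trans r4) (by
        rcases r6 with r6 | r6
        · exact Or.inl ((mul_le_mul_of_nonneg_right hpw hn0.le).trans r6)
        · exact Or.inr ⟨r6, hTn⟩)
    have h8 : ∀ g : Perm (Fin 2 → ZMod L), cycleSum h n g = Pool.Agent.H961.T3.kS h n g :=
      fun g => (Pool.Agent.H961.T3.kS_parts Pool.Agent.H961.T3.all_cyc h n g).symm
    simp only [h8]
    exact h7
  · intro ε hε
    obtain ⟨T, hT, H⟩ := H2 ε hε
    refine ⟨T, by linarith, ?_⟩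
    rintro L _ t n ⟨r1, r2, r3, r4, r5, r6⟩ hTt x
    have hl := hlog L r1
    have hpw : (Real.log L) ^ m₂ ≤ (Real.log L) ^ (m₁ + m₂) := pow_le_pow_right₀ hl (by omega)
    have ht0 : 0 < t := by linarith
    have hn0 : 0 < n := by
      have : 0 < (Real.log L) ^ (m₁ + m₂) * (1 + (L : ℝ) ^ 2 / t) := by positivity
      linarith
    have h7 := H L t n r1 hTt (hpw.trans r2) r3
      ((mul_le_mul_of_nonneg_right hpw (by positivity)).trans r4) r5 (by
        rcases r6 with r6 | r6
        · exact Or.inl ((mul_le_mul_of_nonneg_right hpw hn0.le).trans r6)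
        · exact Or.inr r6) x
    simp only [Pool.Agent.Q297.LC.card_cyc] at h7
    exact h7

end Pool.Agent.Results.MP_6c3d62_pr.PlanarMesoscopicCycles
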