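import Pool.Agent.H961.T5.Nbr

/-!
# Nearest neighbour stirring at large times: the zeta law of the cycle lengths

`stirExp (nnRate d L) t F` (Pool.Agent.Y998.ST.Defs) is the expectation of `F` under random stirring
of the torus `(ℤ / L)^d` at time `t`: nearest neighbour edges ring at rate `1`, start at the
identity. For a permutation `g` the multiset `g.partition.parts` consists of the lengths of all
cycles of `g` (fixed points included, as cycles of length `1`).

Since the total number of cycles is `g.partition.parts.card`, and no cycle is longer than `L ^ d`, part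
(1) contains the law of large numbers for the number of cycles,
`ζ(1 + d/2) (4 π t) ^ (-d/2) L ^ d (1 + o(1))`, and it says that the length of a uniformly chosen cycle
has asymptotically the zeta distribution with parameter `1 + d/2`.

Part (2): the probability that two nearest neighbours are in one cycle is, in the sense of time
averages, `1/2 - ζ(1 + d/2) (4 π)^(-d/2) t^(-1 - d/2) / 4`, up to a factor `1 + o(1)` in the second
term; it is the derivative of the law of large numbers.
-/

set_option autoImplicit false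

namespace Pool.Agent.Results.MP_6c3d62_pr.ZetaLawOfCycleLengths

open Finset Equiv
open Pool.Agent.Y998.ST (stirExp nnRate)

/-- The number of the cycles of `g` of length `j`. -/
noncomputable def numCycles {d L : ℕ} [NeZero L] (g : Perm (Fin d → ZMod L)) (j : ℕ) : ℕ :=
  g.partition.parts.count j

open Classical in
/-- The probability that the sites `x` and `y` are in one cycle of random stirring at time `t`. -/
noncomputable def sameProb {d L : ℕ} [NeZero L] (t : ℝ) (x y : Fin d → ZMod L) : ℝ :=
  stirExp (nnRate d L) t (fun g => if g.SameCycle x y then 1 else 0)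

/-- The sum of `j ^ (-s)` over `j ≥ 1`. -/
noncomputable def zetaSum (s : ℝ) : ℝ := ∑' i : ℕ, ((i : ℝ) + 1) ^ (-s)

/-- Let `d ≥ 2`. There is `m` such that for every `ε > 0` there is `T` such that for all tori of side
`L ≥ 3`:
(1) for all times `t` with `T ≤ t` and `t (log L) ^ m ≤ L ^ 2`, and for all `n`, the mean of
`∑_{1 ≤ j ≤ n} |(4 π t) ^ (d/2) N_j / L ^ d - j ^ (-(1 + d/2))|` is at most `ε`, where `N_j` is the number
of the cycles of length `j` of random stirring at time `t` (`T` does not depend on `n`, so that the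
same holds for the whole series over `j ≥ 1`);
(2) for all times `t`, `u` with `T ≤ t ≤ u` and `u (log L) ^ m ≤ L ^ 2` and nearest neighbours `x`,
`x + e_i`: the integral over `s` from `t` to `u` of `1/2 - P(x and x + e_i are in one cycle at time s)`
differs from `ζ(1 + d/2) / (2 d) ((4 π t) ^ (-d/2) - (4 π u) ^ (-d/2))` by at most `ε t ^ (-d/2)`. -/
theorem result (d : ℕ) (hd : 2 ≤ d) : ∃ m : ℕ, ∀ ε : ℝ, 0 < ε → ∃ T : ℝ, 0 < T ∧
    (∀ (L : ℕ) [NeZero L] (t : ℝ) (n : ℕ), 3 ≤ L → T ≤ t → t * (Real.log L) ^ m ≤ (L : ℝ) ^ 2 →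
      stirExp (nnRate d L) t (fun g => ∑ j ∈ Icc 1 n, |(4 * Real.pi * t) ^ (d / 2 : ℝ) *
        ((numCycles g j : ℝ) / (L : ℝ) ^ d) - (j : ℝ) ^ (-(1 + d / 2 : ℝ))|) ≤ ε) ∧
    (∀ (L : ℕ) [NeZero L] (t u : ℝ) (x : Fin d → ZMod L) (i : Fin d), 3 ≤ L → T ≤ t → t ≤ u →
      u * (Real.log L) ^ m ≤ (L : ℝ) ^ 2 →
      |(∫ s in t..u, (1 / 2 - sameProb s x (x + Pi.single i 1))) -
        zetaSum (1 + d / 2) / (2 * d) * ((4 * Real.pi * t) ^ (-(d / 2 : ℝ)) -
          (4 * Real.pi * u) ^ (-(d / 2 : ℝ)))| ≤ ε * t ^ (-(d / 2 : ℝ))) := by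
  obtain ⟨m₁, h1⟩ := Pool.Agent.H961.T4.zeta_sum d hd
  obtain ⟨m₂, h2⟩ := Pool.Agent.H961.T5.Nbrh.nbr d hd
  have hlog : ∀ L : ℕ, 3 ≤ L → 1 ≤ Real.log L := fun L hL => by
    have hL3 : (3 : ℝ) ≤ L := by exact_mod_cast hL
    have h2 : Real.exp 1 ≤ L := by
      have := Real.exp_one_lt_d9
      linarith
    have := Real.log_le_log (Real.exp_pos 1) h2
    rwa [Real.log_exp] at this
  refine ⟨m₁ + m₂, fun ε hε => ?_⟩
  obtain ⟨T₁, hT₁, g1⟩ := h1 ε hε
  obtain ⟨T₂, hT₂, g2⟩ := h2 ε hε
  refine ⟨max T₁ T₂, lt_of_lt_of_le (by linarith) (le_max_left T₁ T₂), ?_, ?_⟩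
  · intro L _ t n hL ht htL
    have ht0 : 0 ≤ t := by
      have := (le_max_left T₁ T₂).trans ht
      linarith
    refine g1 L t n hL ((le_max_left _ _).trans ht) (le_trans ?_ htL)
    exact mul_le_mul_of_nonneg_left (pow_le_pow_right₀ (hlog L hL) (by omega)) ht0
  · intro L _ t u x i hL ht htu huL
    have hu0 : 0 ≤ u := by
      have := (le_max_left T₁ T₂).trans ht
      linarith
    have h3 := g2 L t u x i hL ((le_max_right _ _).trans ht) htu (le_trans
      (mul_le_mul_of_nonneg_left (pow_le_pow_right₀ (hlog L hL) (by omega)) hu0) huL)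
    have h5 : zetaSum (1 + d / 2) = Pool.Agent.H961.T2.rc d 0 := by
      unfold zetaSum Pool.Agent.H961.T2.rc
      refine tsum_congr fun i => ?_
      push_cast
      rw [add_zero]
    rw [h5]
    exact h3

end Pool.Agent.Results.MP_6c3d62_pr.ZetaLawOfCycleLengths
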